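import Pool.Agent.H7.KR.Stmts
import Pool.Agent.H29.KQ.CSB

/-!
# Row NMS of the board kr: every vertex misses nearly all of a part
-/

set_option autoImplicit false

open Finset

namespace Pool.KR

open Pool.Agent.H23.KT Pool.Agent.H46.KW Pool.KQ

theorem nms (hB : BRKStmt) : NMSStmt := by
  intro p C ε hε
  obtain ⟨a₁, ha₁⟩ := exists_nat_gt (C * 2 ^ (p + 1) / ε ^ (p + 3))
  refine ⟨a₁ + 1, ?_⟩
  intro a ha V _ G e W P U hS he0 he hCB u hu
  classical
  by_contra hcon
  push Not at hcon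
  have haR : ((a₁ + 1 : ℕ) : ℝ) ≤ a := by exact_mod_cast ha
  push_cast at haR
  have ha0 : (0 : ℝ) ≤ a₁ := Nat.cast_nonneg _
  have hapos : (0 : ℝ) < a := by linarith
  have hC1 : C * 2 ^ (p + 1) < a * ε ^ (p + 3) := by
    have h1 : C * 2 ^ (p + 1) / ε ^ (p + 3) < a := by linarith
    rwa [div_lt_iff₀ (by positivity)] at h1
  have hP2 : ∀ i, ((P i).card : ℝ) ≤ 2 * a := by
    intro i
    have h1 := hS.hi i
    nlinarith
  have h3 := h29_brk hB (S := fun i => nb G (P i) u) (fun i => nb_subset G _ _) hP2 hS.tot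
  have h4 : (ε * a) ^ (p + 3) ≤ ∏ i, ((nb G (P i) u).card : ℝ) := by
    have h5 : (ε * a) ^ (p + 3) = ∏ _i : Fin (p + 3), ε * (a : ℝ) := by
      rw [prod_const, card_univ, Fintype.card_fin]
    rw [h5]
    exact prod_le_prod (fun _ _ => by positivity) (fun i _ => (hcon i).le)
  have h5 : C * 2 ^ (p + 1) * (a : ℝ) ^ (p + 2) < (ε * a) ^ (p + 3) := by
    have h6 : (ε * a) ^ (p + 3) = a * ε ^ (p + 3) * (a : ℝ) ^ (p + 2) := by
      rw [mul_pow, pow_succ (a : ℝ) (p + 2)]
      ring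
    rw [h6]
    exact mul_lt_mul_of_pos_right hC1 (by positivity)
  have h6 : (0 : ℝ) < ((trv G (fun i => nb G (P i) u)).card : ℝ) := by linarith
  have h7 : 0 < (trv G (fun i => nb G (P i) u)).card := by exact_mod_cast h6
  obtain ⟨f, hf⟩ := card_pos.1 h7
  rw [h29_mem_trv] at hf
  obtain ⟨hf1, hf2⟩ := hf
  have hinj : Function.Injective f := by
    intro i j hij
    by_contra hne
    have h8 := hf2 i j hne
    rw [hij] at h8
    exact G.loopless.irrefl _ h8
  have hadj : ∀ x ∈ univ.image f, G.Adj u x := by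
    intro x hx
    obtain ⟨i, _, rfl⟩ := mem_image.1 hx
    exact ((mem_nb G).1 (hf1 i)).2
  have h9 := hCB (insert u (univ.image f)) (by
    intro x hx
    rcases mem_insert.1 hx with rfl | hx
    · exact hu
    · obtain ⟨i, _, rfl⟩ := mem_image.1 hx
      exact (hS.cov _).2 (Or.inr ⟨i, nb_subset G _ _ (hf1 i)⟩)) (by
    rw [coe_insert, SimpleGraph.isClique_insert]
    refine ⟨?_, fun x hx _ => hadj x (mem_coe.1 hx)⟩
    intro x hx y hy hxy
    obtain ⟨i, _, rfl⟩ := mem_image.1 (mem_coe.1 hx)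
    obtain ⟨j, _, rfl⟩ := mem_image.1 (mem_coe.1 hy)
    exact hf2 i j (fun h => hxy (by rw [h])))
  rw [card_insert_of_notMem (fun h => G.loopless.irrefl u (hadj u h)),
    card_image_of_injective _ hinj, card_univ, Fintype.card_fin] at h9
  omega

end Pool.KR
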